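import Pool.Agent.H78.STN.Stmts

set_option autoImplicit false

open Polynomial

namespace Pool.STN

theorem NZR_thm (h1 : NADStmt) (h2 : NLNStmt) (h3 : NUPStmt) (h4 : ITPStmt) : NZRStmt := by
  intro n u v hn huv
  by_contra hcon
  have hcon' : ∀ i : ℕ, i ≤ 2 → Nn u v (Pq ^ n) (-3 * n - 1 + i) = 0 := by
    intro i hi
    by_contra hne
    exact hcon ⟨i, hi, hne⟩
  have hz := h3 n u v hn hcon'
  obtain ⟨H, q, hHq, hne⟩ := h4 n u v huv
  have key : ∀ r : ℚ[X], Nn u v (Pq ^ n * r) 0 = 0 := by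
    intro r
    induction r using Polynomial.induction_on' with
    | add p r hp hr => rw [mul_add, h1.1, hp, hr, add_zero]
    | monomial d c =>
      have h5 : Pq ^ n * monomial d c = C c * (X ^ d * Pq ^ n) := by
        rw [← C_mul_X_pow_eq_monomial]; ring
      have h6 : Nn u v (Pq ^ n) (0 + (d : ℤ)) = 0 := by
        apply hz
        have : (0 : ℤ) ≤ (d : ℤ) := Int.natCast_nonneg d
        have : (0 : ℤ) ≤ (n : ℤ) := Int.natCast_nonneg n
        omega
      rw [h5, h1.2.1, h1.2.2, h6, mul_zero]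
  have e := h2 u v H 0
  have e2 : (X * derivative H + C (((0 : ℤ) : ℚ)) * H) = X ^ 1 * (derivative H) := by
    simp
  have e3 : (0 : ℤ) - 1 + ((1 : ℕ) : ℤ) = 0 := by norm_num
  rw [e2, h1.2.2, hHq, e3, key] at e
  apply hne
  simp only [zpow_zero, mul_one] at e
  linarith [e]

end Pool.STN
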